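import Mathlib
import Pool.Agent.TH935.GF
import Pool.Agent.TH894.SM0
import Pool.Agent.R521.GG.Stms

set_option autoImplicit false

/-!
# Project GG, piece GG-F (S_gold)
-/

namespace Pool.Agent.R906.GGF

open Finset
open Pool.Agent.H560R3.GB (sing C₂ energy)
open Pool.Agent.W93.PG (WinP cnt)
open Pool.Agent.R521.GG

/-- the energy of order one of an injective family -/
lemma energy_one (x : ℕ) (s : ℕ → ℕ) (hs : Function.Injective s) : energy 1 x s ≤ x := by
  classical
  unfold energy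
  have h : ((((Fintype.piFinset fun _ : Fin 1 => Icc 1 x) ×ˢ (Fintype.piFinset fun _ : Fin 1 => Icc 1 x)).filter
      (fun q => ∑ i, s (q.1 i) = ∑ i, s (q.2 i))).card) ≤ (Fintype.piFinset fun _ : Fin 1 => Icc 1 x).card := by
    apply card_le_card_of_injOn (fun q => q.1)
    · intro q hq
      rw [mem_coe, mem_filter, mem_product] at hq
      exact hq.1.1
    · intro q hq r hr hqr
      rw [mem_coe, mem_filter, mem_product] at hq hr
      have h1 := hq.2
      have h2 := hr.2
      simp only [Fin.sum_univ_one] at h1 h2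
      have h3 : q.1 = r.1 := hqr
      have h4 : q.2 0 = r.2 0 := hs (by rw [← h1, ← h2, h3])
      apply Prod.ext h3
      funext i
      rw [Subsingleton.elim i 0]
      exact h4
  refine h.trans ?_
  rw [Fintype.card_piFinset]
  simp

/-- the weight is at most twice the singular series -/
lemma wt_le (a : ℕ) (ha : 1 ≤ a) : wt a / 2 ≤ sing (2 * a) := by
  have h1 := (Pool.Agent.TH894.SM.sing_tot (2 * a) (by omega) (dvd_mul_right 2 a)).1
  have h2 := Pool.Agent.W93.GB.C2_half
  have hφ : 0 < a.totient := Nat.totient_pos.2 ha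
  have hφr : (0 : ℝ) < a.totient := by exact_mod_cast hφ
  have hφ2 : 0 < (2 * a).totient := Nat.totient_pos.2 (by omega)
  have hφ2r : (0 : ℝ) < (2 * a).totient := by exact_mod_cast hφ2
  have har : (1 : ℝ) ≤ a := by exact_mod_cast ha
  have h3 : (2 * a).totient ≤ 2 * a.totient := by
    by_cases h : 2 ∣ a
    · rw [Nat.totient_mul_of_prime_of_dvd Nat.prime_two h]
    · rw [Nat.totient_mul_of_prime_of_not_dvd Nat.prime_two h]
      omega
  have h3r : ((2 * a).totient : ℝ) ≤ 2 * a.totient := by exact_mod_cast h3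
  have h4 : wt a ≤ ((2 * a : ℕ) : ℝ) / (2 * a).totient := by
    unfold wt
    rw [div_le_div_iff₀ hφr hφ2r]
    push_cast
    nlinarith
  have h5 : 0 ≤ wt a := by
    unfold wt
    positivity
  have h6 : (0 : ℝ) ≤ ((2 * a : ℕ) : ℝ) / (2 * a).totient := by positivity
  calc wt a / 2 = 1 / 2 * wt a := by ring
    _ ≤ 1 / 2 * (((2 * a : ℕ) : ℝ) / (2 * a).totient) := by linarith
    _ ≤ C₂ * (((2 * a : ℕ) : ℝ) / (2 * a).totient) := mul_le_mul_of_nonneg_right h2 h6
    _ ≤ _ := h1

lemma two_le_log (n : ℕ) (hn : 16 ≤ n) : 2 ≤ Real.log n := by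
  have h1 : (16 : ℝ) ≤ n := by exact_mod_cast hn
  rw [Real.le_log_iff_exp_le (by linarith)]
  have h2 := Real.exp_one_lt_d9
  have h3 : Real.exp 2 = Real.exp 1 * Real.exp 1 := by rw [← Real.exp_add]; norm_num
  rw [h3]
  have h4 := Real.exp_pos 1
  nlinarith

/-- the pairs of primes with sum `2 a` give neighbours of `a` -/
lemma cnt_le (a n : ℕ) (ha : 3 ≤ a) (hn : a ≤ n) : cnt (2 * a) 0 (a - 1) ≤ dg (Icc 1 n) a := by
  unfold cnt dg
  apply card_le_card_of_injOn (fun p => a - p)
  · intro p hp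
    rw [mem_coe, mem_filter, mem_Ioc] at hp
    obtain ⟨⟨h1, h2⟩, h3, h4⟩ := hp
    rw [mem_coe, mem_filter, mem_Icc]
    have e1 : a + (a - p) = 2 * a - p := by omega
    have e2 : Nat.dist a (a - p) = p := by
      unfold Nat.dist
      omega
    refine ⟨⟨?_, ?_⟩, ?_⟩
    · show 1 ≤ a - p
      omega
    · show a - p ≤ n
      omega
    · unfold R
      rw [e1, e2]
      refine ⟨⟨h4, ?_⟩, h3, ?_⟩
      · exact h4.odd_of_ne_two (by omega)
      · apply h3.odd_of_ne_two
        intro h5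
        subst h5
        have h6 : 2 ∣ 2 * a - 2 := ⟨a - 1, by omega⟩
        have h7 := (Nat.prime_dvd_prime_iff_eq Nat.prime_two h4).1 h6
        omega
  · intro p hp q hq h
    rw [mem_coe, mem_filter, mem_Ioc] at hp hq
    have h1 := hp.1.2
    have h2 := hq.1.2
    have h3 : a - p = a - q := h
    omega

lemma good (n a : ℕ) (hn : 16 ≤ n) (ha : a ≤ n) (h2 : n < 2 * a) (hW : WinP (1 / 2) 2 (2 * a)) :
    1 / 64 * wt a * LL n ≤ dg (Icc 1 n) a := by
  have hnr : (16 : ℝ) ≤ n := by exact_mod_cast hn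
  have har : (a : ℝ) ≤ n := by exact_mod_cast ha
  have h2r : (n : ℝ) < 2 * a := by exact_mod_cast h2
  have hL := two_le_log n hn
  have hL2 := two_le_log (2 * a) (by omega)
  have hcast : ((2 * a : ℕ) : ℝ) = 2 * a := by push_cast; ring
  have hc1 : ((a - 1 : ℕ) : ℝ) = (a : ℝ) - 1 := by
    rw [Nat.cast_sub (by omega)]
    simp
  have h := hW 0 (a - 1) (by omega) (by omega) (by
    rw [hc1, hcast]
    rw [hcast] at hL2
    have h4 : (4 : ℝ) ≤ Real.log (2 * a) ^ 2 := by nlinarith
    rw [div_le_iff₀ (by linarith)]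
    simp only [Nat.cast_zero, sub_zero]
    nlinarith)
  have hlog : Real.log ((2 * a : ℕ) : ℝ) ≤ 2 * Real.log n := by
    rw [hcast]
    have e : 2 * Real.log n = Real.log ((n : ℝ) ^ 2) := by rw [Real.log_pow]; norm_num
    rw [e]
    apply Real.log_le_log (by linarith)
    nlinarith
  rw [hc1, Nat.cast_zero, sub_zero] at h
  obtain ⟨h5, _⟩ := abs_le.1 h
  have hw := wt_le a (by omega)
  have hw0 : 0 ≤ wt a := by
    unfold wt
    positivity
  have hM : wt a * n / (32 * Real.log n ^ 2) ≤ sing (2 * a) * ((a : ℝ) - 1) / Real.log ((2 * a : ℕ) : ℝ) ^ 2 := by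
    have hs0 : 0 ≤ sing (2 * a) := by linarith [Pool.Agent.W93.GB.one_le_sing (2 * a)]
    have h6 : (n : ℝ) / 4 ≤ (a : ℝ) - 1 := by linarith
    have h7 : Real.log ((2 * a : ℕ) : ℝ) ^ 2 ≤ 4 * Real.log n ^ 2 := by
      have := pow_le_pow_left₀ (by linarith) hlog 2
      calc Real.log ((2 * a : ℕ) : ℝ) ^ 2 ≤ (2 * Real.log n) ^ 2 := this
        _ = _ := by ring
    have h8 : wt a / 2 * ((n : ℝ) / 4) ≤ sing (2 * a) * ((a : ℝ) - 1) :=
      mul_le_mul hw h6 (by positivity) hs0
    have h9 : wt a * n / (32 * Real.log n ^ 2) = (wt a / 2 * ((n : ℝ) / 4)) / (4 * Real.log n ^ 2) := by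
      have : Real.log n ≠ 0 := by linarith
      field_simp
      ring
    rw [h9]
    apply div_le_div₀ _ h8 (by positivity) h7
    apply mul_nonneg hs0
    linarith
  have hc := cnt_le a n (by omega) ha
  have hcr : (cnt (2 * a) 0 (a - 1) : ℝ) ≤ dg (Icc 1 n) a := by exact_mod_cast hc
  have hfin : 1 / 64 * wt a * LL n = 1 / 2 * (wt a * n / (32 * Real.log n ^ 2)) := by
    unfold LL
    have : Real.log n ≠ 0 := by linarith
    field_simp
    ring
  rw [hfin]
  linarith

theorem t_gold : S_gold := by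
  classical
  refine ⟨1 / 64, by norm_num, fun U => ?_⟩
  obtain ⟨N₀, h⟩ := Pool.Agent.TH935.GF.fam_win 1 2 0 2 U 0 le_rfl (1 / 2) (by norm_num) (WinP (1 / 2) 2)
    (fun m _ _ h => h)
  refine ⟨max N₀ 16, fun n hn => ?_⟩
  have hn1 := le_trans (le_max_left _ _) hn
  have hn2 := le_trans (le_max_right _ _) hn
  apply h n hn1 n (fun m => 2 * m)
  · intro m hm
    rw [mem_Icc] at hm
    exact ⟨by show 2 * m ≤ 2 * n; omega, dvd_mul_right 2 m⟩
  · have h1 := energy_one n (fun m => 2 * m) (fun a b hab => by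
      have : 2 * a = 2 * b := hab
      omega)
    have h2 : (energy 1 n (fun m => 2 * m) : ℝ) ≤ n := by exact_mod_cast h1
    have h3 : (0 : ℝ) ≤ n := Nat.cast_nonneg n
    calc (energy 1 n (fun m => 2 * m) : ℝ) * n ≤ n * n := mul_le_mul_of_nonneg_right h2 h3
      _ = _ := by ring
  · exact filter_subset _ _
  · intro a ha hW
    rw [mem_filter, mem_Icc] at ha
    obtain ⟨⟨_, h1⟩, h2, h3⟩ := ha
    have := good n a hn2 h1 h2 hW
    linarith

end Pool.Agent.R906.GGF
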