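import Mathlib
import Pool.Agent.H560R3.GB.Tup3
import Pool.Agent.R906.GG.Gold

set_option autoImplicit false

/-!
# Project GG, piece GG-G (S_twin)
-/

namespace Pool.Agent.R906.GGG

open Finset
open Pool.Agent.H560R3.GB (sing C₂ primeTuples tuple_upper ftuples_full)
open Pool.Agent.H373R2.T7 (nuP singZ tupleCount ev_log' ev_L')
open Pool.Agent.W93.GB (sh singZ_near one_le_sing)
open Pool.Agent.R521.GG
open Pool.Agent.R906.GGF (wt_le two_le_log)

lemma energyZ_one (x : ℕ) (s : ℕ → ℤ) (hs : Function.Injective s) :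
    Pool.Agent.H373R2.T7.energy 1 x s ≤ x := by
  classical
  unfold Pool.Agent.H373R2.T7.energy
  have h : ((((Fintype.piFinset fun _ : Fin 1 => Icc 1 x) ×ˢ (Fintype.piFinset fun _ : Fin 1 => Icc 1 x)).filter
      (fun q => ∑ i, s (q.1 i) = ∑ i, s (q.2 i))).card) ≤ (Fintype.piFinset fun _ : Fin 1 => Icc 1 x).card := by
    apply card_le_card_of_injOn (fun q => q.1)
    · intro q hq
      rw [mem_coe, mem_filter, mem_product] at hq
      exact hq.1.1
    · intro q hq r hr hqr
      rw [mem_coe, mem_filter, mem_product] at hq hr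
      have h1 := hq.2
      have h2 := hr.2
      simp only [Fin.sum_univ_one] at h1 h2
      have h3 : q.1 = r.1 := hqr
      have h4 : q.2 0 = r.2 0 := hs (by rw [← h1, ← h2, h3])
      apply Prod.ext h3
      funext i
      rw [Subsingleton.elim i 0]
      exact h4
  refine h.trans ?_
  rw [Fintype.card_piFinset]
  simp

/-- the number of the residues is the same for the shifts `n` and `-n` -/
lemma nuP_neg (n p : ℕ) (hp : 0 < p) : nuP (fun _ : Fin 1 => (n : ℤ)) p = nuP (sh n) p := by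
  have key : ∀ (c d : ℤ), c + d = 0 → nuP (fun _ : Fin 1 => c) p ≤ nuP (fun _ : Fin 1 => d) p := by
    intro c d hcd
    unfold nuP
    have hmod : ∀ r : ℕ, r < p → (p : ℤ) ∣ (((p - r) % p : ℕ) : ℤ) + r := by
      intro r hr
      rcases Nat.eq_zero_or_pos r with h | h
      · subst h
        simp
      · rw [Nat.mod_eq_of_lt (by omega)]
        have : (((p - r : ℕ) : ℕ) : ℤ) + r = p := by omega
        rw [this]
    apply card_le_card_of_injOn (fun r => (p - r) % p)
    · intro r hr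
      rw [mem_coe, mem_filter, mem_range] at hr
      rw [mem_coe, mem_filter, mem_range]
      obtain ⟨h1, h2⟩ := hr
      refine ⟨Nat.mod_lt _ hp, ?_⟩
      have h3 := hmod r h1
      rcases h2 with h2 | ⟨i, h2⟩
      · left
        have h4 : (p : ℤ) ∣ (r : ℤ) := by exact_mod_cast h2
        have h5 := (dvd_add_left h4).1 h3
        exact_mod_cast h5
      · right
        refine ⟨i, ?_⟩
        have h4 := dvd_sub h3 h2
        have e : (((p - r) % p : ℕ) : ℤ) + r - (r + c) = (((p - r) % p : ℕ) : ℤ) + d := by linarith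
        rw [e] at h4
        exact h4
    · intro r hr q hq hrq
      rw [mem_coe, mem_filter, mem_range] at hr hq
      have h3 := hmod r hr.1
      have h4 := hmod q hq.1
      have h5 : (p - r) % p = (p - q) % p := hrq
      rw [h5] at h3
      have h6 := dvd_sub h3 h4
      have e : (((p - q) % p : ℕ) : ℤ) + r - ((((p - q) % p : ℕ) : ℤ) + q) = (r : ℤ) - q := by ring
      rw [e] at h6
      have h7 : (r : ℤ) - q = 0 := by
        apply Int.eq_zero_of_abs_lt_dvd h6
        rw [abs_lt]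
        constructor <;> [have := hq.1; have := hr.1] <;> omega
      omega
  apply le_antisymm
  · exact key n (-(n : ℤ)) (by ring)
  · exact key (-(n : ℤ)) n (by ring)

lemma singZ_neg (n z : ℕ) : singZ (fun _ : Fin 1 => (n : ℤ)) z = singZ (sh n) z := by
  unfold singZ
  apply prod_congr rfl
  intro p hp
  rw [mem_filter] at hp
  rw [nuP_neg n p hp.2.pos]

/-- the pairs of primes with difference `2 a` give neighbours of `a` -/
lemma tup_le (a n : ℕ) (ha : 1 ≤ a) (hn : 2 * a ≤ n) : primeTuples (fun _ : Fin 1 => 2 * a) (n / 2) ≤ dg (Icc 1 n) a := by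
  unfold primeTuples dg
  apply card_le_card_of_injOn (fun q => q + a)
  · intro q hq
    rw [mem_coe, mem_filter, mem_Icc] at hq
    obtain ⟨⟨h1, h2⟩, h3, h4⟩ := hq
    have h4 : (q + 2 * a).Prime := h4 0
    rw [mem_coe, mem_filter, mem_Icc]
    have e1 : a + (q + a) = q + 2 * a := by omega
    have e2 : Nat.dist a (q + a) = q := by
      unfold Nat.dist
      omega
    refine ⟨⟨?_, ?_⟩, ?_⟩
    · show 1 ≤ q + a
      omega
    · show q + a ≤ n
      omega
    · unfold R
      rw [e1, e2]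
      have h5 := h3.two_le
      refine ⟨⟨h4, h4.odd_of_ne_two (by omega)⟩, h3, ?_⟩
      apply h3.odd_of_ne_two
      intro h6
      have h7 : 2 ∣ q + 2 * a := ⟨1 + a, by rw [h6]; ring⟩
      have h8 := (Nat.prime_dvd_prime_iff_eq Nat.prime_two h4).1 h7
      omega
  · intro p _ q _ h
    have h3 : p + a = q + a := h
    omega

lemma good (n a N U : ℕ) (hN : N = n / 2) (hn : 64 ≤ n) (ha : 1 ≤ a) (h2 : 2 * a ≤ n) (hU : 4 ≤ Real.log N ^ U) (S : ℝ)
    (hS : sing (2 * a) / 2 ≤ S)
    (hT : |tupleCount (fun _ : Fin 1 => ((2 * a : ℕ) : ℤ)) N - S * N| ≤ (N : ℝ) / Real.log N ^ U) :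
    1 / 100 * wt a * LL n ≤ dg (Icc 1 n) a := by
  have hnr : (64 : ℝ) ≤ n := by exact_mod_cast hn
  have hL := two_le_log n (by omega)
  have hs1 := one_le_sing (2 * a)
  have hN3 : n ≤ 3 * N := by omega
  have hN2 : 2 * N ≤ n := by omega
  have hN3r : (n : ℝ) ≤ 3 * N := by exact_mod_cast hN3
  have hN2r : 2 * (N : ℝ) ≤ n := by exact_mod_cast hN2
  have hN0 : (0 : ℝ) < N := by linarith
  have hup := tuple_upper (fun _ : Fin 1 => 2 * a) N 2 (fun _ => by show 2 * a ≤ 2 * N; omega)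
  have hup' : tupleCount (fun _ : Fin 1 => ((2 * a : ℕ) : ℤ)) N ≤
      Real.log (3 * N) ^ 2 * primeTuples (fun _ : Fin 1 => 2 * a) N := by
    have e : ((2 : ℕ) : ℝ) + 1 = 3 := by norm_num
    rw [e] at hup
    exact hup
  obtain ⟨h5, _⟩ := abs_le.1 hT
  have h6 : (N : ℝ) / Real.log N ^ U ≤ N / 4 := by
    apply div_le_div_of_nonneg_left hN0.le (by norm_num) hU
  have h7 : sing (2 * a) * N / 4 ≤ tupleCount (fun _ : Fin 1 => ((2 * a : ℕ) : ℤ)) N := by
    have h8 : sing (2 * a) / 2 * N ≤ S * N := mul_le_mul_of_nonneg_right hS hN0.le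
    have h9 : (N : ℝ) ≤ sing (2 * a) * N := le_mul_of_one_le_left hN0.le hs1
    linarith
  have hlog : Real.log (3 * (N : ℝ)) ≤ 2 * Real.log n := by
    have e : 2 * Real.log n = Real.log ((n : ℝ) ^ 2) := by rw [Real.log_pow]; norm_num
    rw [e]
    apply Real.log_le_log (by linarith)
    nlinarith
  have hlog0 : 0 ≤ Real.log (3 * (N : ℝ)) := Real.log_nonneg (by linarith)
  have hlog2 : Real.log (3 * (N : ℝ)) ^ 2 ≤ 4 * Real.log n ^ 2 := by
    calc Real.log (3 * (N : ℝ)) ^ 2 ≤ (2 * Real.log n) ^ 2 := pow_le_pow_left₀ hlog0 hlog 2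
      _ = _ := by ring
  have hP : sing (2 * a) * N / 4 ≤ 4 * Real.log n ^ 2 * primeTuples (fun _ : Fin 1 => 2 * a) N := by
    refine (h7.trans hup').trans ?_
    exact mul_le_mul_of_nonneg_right hlog2 (Nat.cast_nonneg _)
  have hw := wt_le a ha
  have hw0 : 0 ≤ wt a := by
    unfold wt
    positivity
  have hc := tup_le a n ha h2
  rw [← hN] at hc
  have hcr : (primeTuples (fun _ : Fin 1 => 2 * a) N : ℝ) ≤ dg (Icc 1 n) a := by exact_mod_cast hc
  refine le_trans ?_ hcr
  have hL0 : 0 < Real.log n ^ 2 := by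
    have : 0 < Real.log n := by linarith
    positivity
  have hfin : 1 / 100 * wt a * LL n = (wt a * n / 100) / Real.log n ^ 2 := by
    unfold LL
    ring
  rw [hfin, div_le_iff₀ hL0]
  have h10 : wt a * n / 96 ≤ sing (2 * a) * N / 16 := by
    have h11 : wt a / 2 * (n / 3) ≤ sing (2 * a) * N :=
      mul_le_mul hw (by linarith) (by positivity) (by linarith)
    linarith
  have h12 : 0 ≤ wt a * n := by positivity
  linarith

lemma ev_half (U n0 : ℕ) : ∃ n1 : ℕ, ∀ n : ℕ, n1 ≤ n →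
    (n0 : ℝ) + ((n / 2 : ℕ) : ℝ) / Real.log ((n / 2 : ℕ) : ℝ) ^ (U + 1) ≤ n / Real.log n ^ U := by
  obtain ⟨m1, h1⟩ := ev_log' U (2 * n0)
  obtain ⟨m2, h2⟩ := ev_L' (2 ^ (U + 2) + 4)
  refine ⟨m1 + m2 + 64, fun n hn => ?_⟩
  have a1 := h1 n (by omega)
  have a2 := h2 n (by omega)
  have hnr : (64 : ℝ) ≤ n := by
    have : 64 ≤ n := by omega
    exact_mod_cast this
  have hp : (0 : ℝ) < 2 ^ (U + 2) := by positivity
  have hL : 4 ≤ Real.log n := by linarith
  have hL0 : 0 < Real.log n := by linarith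
  have hLU : 0 < Real.log n ^ U := by positivity
  have hN3 : n ≤ 3 * (n / 2) := by omega
  have hN2 : 2 * (n / 2) ≤ n := by omega
  have hN3r : (n : ℝ) ≤ 3 * ((n / 2 : ℕ) : ℝ) := by exact_mod_cast hN3
  have hN2r : 2 * ((n / 2 : ℕ) : ℝ) ≤ n := by exact_mod_cast hN2
  have e1 : (n0 : ℝ) ≤ 1 / 2 * (n / Real.log n ^ U) := by
    have e2 : √(n : ℝ) ≤ n := by
      rw [Real.sqrt_le_left (by linarith)]
      nlinarith
    have e3 : 1 / 2 * ((n : ℝ) / Real.log n ^ U) = (n / 2) / Real.log n ^ U := by ring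
    rw [e3, le_div_iff₀ hLU]
    linarith
  have e4 : Real.log n / 2 ≤ Real.log ((n / 2 : ℕ) : ℝ) := by
    have e5 : Real.log n - Real.log 3 ≤ Real.log ((n / 2 : ℕ) : ℝ) := by
      rw [← Real.log_div (by linarith) (by norm_num)]
      apply Real.log_le_log (by positivity)
      linarith
    have e6 : Real.log 3 ≤ 2 := by
      have : Real.log 3 ≤ 3 - 1 := Real.log_le_sub_one_of_pos (by norm_num)
      linarith
    linarith
  have e7 : ((n / 2 : ℕ) : ℝ) / Real.log ((n / 2 : ℕ) : ℝ) ^ (U + 1) ≤ 1 / 2 * (n / Real.log n ^ U) := by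
    have e8 : (Real.log n / 2) ^ (U + 1) ≤ Real.log ((n / 2 : ℕ) : ℝ) ^ (U + 1) :=
      pow_le_pow_left₀ (by linarith) e4 _
    calc ((n / 2 : ℕ) : ℝ) / Real.log ((n / 2 : ℕ) : ℝ) ^ (U + 1) ≤ (n / 2) / (Real.log n / 2) ^ (U + 1) := by
          apply div_le_div₀ (by positivity) (by linarith) (by positivity) e8
      _ = (2 ^ U / Real.log n) * (n / Real.log n ^ U) := by
          rw [div_pow, pow_succ (Real.log n), pow_succ (2 : ℝ)]
          field_simp
      _ ≤ 1 / 2 * (n / Real.log n ^ U) := by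
          apply mul_le_mul_of_nonneg_right _ (by positivity)
          rw [div_le_iff₀ hL0]
          have : (2 : ℝ) ^ (U + 2) = 4 * 2 ^ U := by ring
          linarith
  linarith

theorem t_twin : S_twin := by
  classical
  refine ⟨1 / 100, by norm_num, fun U => ?_⟩
  obtain ⟨N0, h⟩ := ftuples_full 1 1 2 0 (U + 1) le_rfl le_rfl
  obtain ⟨n0, hnear⟩ := singZ_near (1 / 2) (by norm_num)
  obtain ⟨n1, hev⟩ := ev_half U n0
  obtain ⟨n2, hL⟩ := ev_L' 4
  refine ⟨2 * N0 + n1 + 2 * n2 + 64, fun n hn => ?_⟩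
  obtain ⟨N, hN⟩ : ∃ N, N = n / 2 := ⟨_, rfl⟩
  have hLN := hL N (by omega)
  have hU4 : 4 ≤ Real.log N ^ (U + 1) := by
    have h1 : Real.log N ^ 1 ≤ Real.log N ^ (U + 1) := pow_le_pow_right₀ (by linarith) (by omega)
    rw [pow_one] at h1
    linarith
  have hmain := h N (by omega) (fun _ => N) (fun _ m => 2 * m) (fun _ => by show 1 ≤ N; omega)
    (fun _ m hm => by
      have hm' := (mem_Icc.1 hm).2
      show 2 * m ≤ 2 * N
      omega)
    (fun _ => by
      have h1 := energyZ_one N (fun m => ((2 * m : ℕ) : ℤ)) (fun a b hab => by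
        have : ((2 * a : ℕ) : ℤ) = ((2 * b : ℕ) : ℤ) := hab
        omega)
      have h2 : (Pool.Agent.H373R2.T7.energy 1 N (fun m => ((2 * m : ℕ) : ℤ)) : ℝ) ≤ N := by exact_mod_cast h1
      have h3 : (0 : ℝ) ≤ N := Nat.cast_nonneg N
      calc (Pool.Agent.H373R2.T7.energy 1 N (fun m => ((2 * m : ℕ) : ℤ)) : ℝ) * N ≤ N * N :=
            mul_le_mul_of_nonneg_right h2 h3
        _ = _ := by ring)
  have hev' := hev n (by omega)
  rw [← hN] at hev'
  refine le_trans ?_ hev'
  set E := (Fintype.piFinset (fun _ : Fin 1 => Icc 1 N)).filter (fun m : Fin 1 → ℕ =>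
        ¬ ∃ S : ℝ, Filter.Tendsto (fun z => singZ (fun i => (((fun _ m => 2 * m) : Fin 1 → ℕ → ℕ) i (m i) : ℤ)) z) Filter.atTop (nhds S) ∧
        |tupleCount (fun i => (((fun _ m => 2 * m) : Fin 1 → ℕ → ℕ) i (m i) : ℤ)) N - S * N| ≤ (N : ℝ) / Real.log N ^ (U + 1)) with hE
  have hcard : ((Icc 1 n).filter (fun a => 2 * a ≤ n ∧ (dg (Icc 1 n) a : ℝ) < 1 / 100 * wt a * LL n)).card ≤ n0 + E.card := by
    have hsub : (Icc 1 n).filter (fun a => 2 * a ≤ n ∧ (dg (Icc 1 n) a : ℝ) < 1 / 100 * wt a * LL n) ⊆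
        range n0 ∪ E.image (fun m => m 0) := by
      intro a ha
      rw [mem_filter, mem_Icc] at ha
      obtain ⟨⟨h1, _⟩, h2, h3⟩ := ha
      rw [mem_union, mem_range, mem_image]
      by_cases h4 : a < n0
      · exact Or.inl h4
      · right
        refine ⟨fun _ => a, ?_, rfl⟩
        rw [hE, mem_filter]
        refine ⟨?_, ?_⟩
        · rw [Fintype.mem_piFinset]
          intro _
          rw [mem_Icc]
          omega
        · rintro ⟨S, hS1, hS2⟩
          have hS : sing (2 * a) / 2 ≤ S := by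
            apply ge_of_tendsto hS1
            rw [Filter.eventually_atTop]
            refine ⟨⌈Real.log ((2 * a : ℕ) : ℝ) ^ 2⌉₊, fun z hz => ?_⟩
            have h5 := hnear (2 * a) (by omega) (dvd_mul_right 2 a) z (Nat.ceil_le.1 hz)
            have h6 := (abs_le.1 h5).1
            have h7 : singZ (fun _ : Fin 1 => ((2 * a : ℕ) : ℤ)) z = singZ (sh (2 * a)) z := singZ_neg (2 * a) z
            show sing (2 * a) / 2 ≤ singZ (fun _ : Fin 1 => ((2 * a : ℕ) : ℤ)) z
            rw [h7]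
            linarith
          have := good n a N (U + 1) hN (by omega) h1 h2 hU4 S hS hS2
          linarith
    refine (card_le_card hsub).trans ((card_union_le _ _).trans ?_)
    rw [card_range]
    exact Nat.add_le_add_left card_image_le _
  have hcr : (((Icc 1 n).filter (fun a => 2 * a ≤ n ∧ (dg (Icc 1 n) a : ℝ) < 1 / 100 * wt a * LL n)).card : ℝ) ≤
      n0 + (E.card : ℝ) := by exact_mod_cast hcard
  refine hcr.trans ?_
  have hp : (∏ _i : Fin 1, (N : ℝ)) = N := by simp
  rw [hp] at hmain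
  linarith

end Pool.Agent.R906.GGG
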